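import Pool.Agent.H93.CV.CT

set_option autoImplicit false

open Finset Polynomial

namespace Pool.Agent.H93.CV

open Pool.Agent.H11.CV

/-- CN: decoupling for the cone. -/
theorem cn (hCT : T_CT) (hDL : T_DL) (hSL : T_SL) : T_CN := by
  intro p d m a b D G _ _ τ F hpp hdp hd hb hm hD hF hFlat
  have hp : 1 < p := hpp.one_lt
  set κ := KK (d - 1) with hκ
  have hκ1 : 1 ≤ κ := KK_pos (by omega)
  have hp0 : (0 : ℝ) < p := by exact_mod_cast (by omega : 0 < p)
  have hp1 : (1 : ℝ) ≤ p := by exact_mod_cast hp.le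
  have hexp : 3 * (d - 1) * b * κ = 3 * (((d - 1) * b) * κ) := by ring
  rw [hexp]
  set c := (d - 1) * b with hc
  have hc1 : 1 ≤ c := Nat.mul_pos (by omega) hb
  set q := 2 * κ with hq
  set S := ∑ ξ ∈ range (p ^ a), ∑ g, ‖dlt p a F ξ g‖ ^ q with hS
  have hS0 : 0 ≤ S := Finset.sum_nonneg fun ξ _ => Finset.sum_nonneg fun g _ => by positivity
  rcases Nat.lt_or_ge a c with hac | hca
  · have h1 : ∑ g, ‖∑ ξ ∈ range (p ^ a), dlt p a F ξ g‖ ^ q ≤ ((p : ℝ) ^ a) ^ (q - 1) * S := by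
      rw [hS, Finset.sum_comm, Finset.mul_sum]
      refine Finset.sum_le_sum fun g _ => ?_
      have := norm_sum_pow_le (range (p ^ a)) (fun ξ => dlt p a F ξ g) q (by omega)
      rw [Finset.card_range] at this
      push_cast at this
      exact this
    refine h1.trans ?_
    refine mul_le_mul_of_nonneg_right ?_ hS0
    have h2 : ((p : ℝ) ^ a) ^ (q - 1) ≤ (p : ℝ) ^ (3 * (c * κ)) * (p : ℝ) ^ (a * (κ - 1)) := by
      rw [← pow_mul, ← pow_add]
      refine pow_le_pow_right₀ hp1 ?_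
      obtain ⟨k, hk⟩ : ∃ k, κ = k + 1 := ⟨κ - 1, by omega⟩
      rw [hq, hk, Nat.add_sub_cancel]
      have : 2 * (k + 1) - 1 = 2 * k + 1 := by omega
      rw [this]
      nlinarith [Nat.mul_le_mul_right (k + 1) hac.le]
    have h3 : (1 : ℝ) ≤ D ^ (a / b + 1) := one_le_pow₀ hD
    calc ((p : ℝ) ^ a) ^ (q - 1) ≤ (p : ℝ) ^ (3 * (c * κ)) * (p : ℝ) ^ (a * (κ - 1)) := h2
      _ = (p : ℝ) ^ (3 * (c * κ)) * 1 * (p : ℝ) ^ (a * (κ - 1)) := by ring
      _ ≤ _ := by gcongr
  · have hacm : a + c ≤ m := by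
      have : 2 * (a + 1) ≤ d * (a + 1) := Nat.mul_le_mul_right _ hd
      omega
    have ham : a + 1 ≤ m := by
      have : 2 * (a + 1) ≤ d * (a + 1) := Nat.mul_le_mul_right _ hd
      omega
    have hcl : ∀ ξ ∈ range (p ^ a), ∀ i : ℕ, i < p →
        Cls p d m τ (a + 1) ((ξ + p ^ a * i : ℕ) : ℤ) (F (ξ + p ^ a * i)) := by
      intro ξ hξ i hi
      refine hF _ ?_
      have h1 : ξ < p ^ a := Finset.mem_range.1 hξ
      calc ξ + p ^ a * i < p ^ a + p ^ a * i := by omega
        _ = p ^ a * (i + 1) := by ring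
        _ ≤ p ^ a * p := Nat.mul_le_mul_left _ hi
        _ = p ^ (a + 1) := by rw [pow_succ]
    have hDLξ := fun ξ (hξ : ξ ∈ range (p ^ a)) =>
      hDL p d m a G τ F ξ hp (by omega) ham (hcl ξ hξ)
    set v := vv p m (a + c) τ with hv
    have hpv : (p ^ c : ℕ) • v = τ (C ((p : ℤ) ^ (m - a)) * X) := by
      rw [hv]
      unfold vv
      rw [← map_nsmul]
      congr 1
      rw [nsmul_eq_mul, ← mul_assoc]
      congr 1
      have : ((p ^ c : ℕ) : ℤ[X]) = C ((p : ℤ) ^ c) := by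
        simp
      rw [this, ← C_mul, ← pow_add]
      congr 2
      omega
    set h : G → ℂ := fun g => ∑ ξ ∈ range (p ^ a), dlt p a F ξ g with hh
    have hper : ∀ g, h (g + (p ^ c : ℕ) • v) = h g := by
      intro g
      rw [hpv, hh]
      exact Finset.sum_congr rfl fun ξ hξ => (hDLξ ξ hξ).2.1 g
    have hM : 0 < p ^ c := by positivity
    obtain ⟨sl1, sl2, sl3⟩ := hSL (p ^ c) G v hM
    have hdecomp := (sl3 h hper).1
    have hslc : ∀ r g, slc (p ^ c) v r h g = cs p m a c τ F r 0 0 g := by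
      intro r g
      rw [hh, sl1]
      unfold cs
      rw [Nat.sub_zero]
      refine Finset.sum_congr rfl fun z _ => ?_
      rw [pow_zero, one_mul, zero_add]
    have hbound : ∀ r ∈ range (p ^ c), ∑ g, ‖slc (p ^ c) v r h g‖ ^ q ≤
        D ^ (a / b + 1) * (p : ℝ) ^ (a * (κ - 1)) * (p : ℝ) ^ (c * κ) * S := by
      intro r _
      by_cases hpr : p ∣ r
      · have : ∀ g, slc (p ^ c) v r h g = 0 := by
          intro g
          rw [hh, sl1]
          exact Finset.sum_eq_zero fun ξ hξ => (hDLξ ξ hξ).2.2 c r hc1 hacm hpr g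
        rw [Finset.sum_eq_zero fun g _ => by rw [this g, norm_zero, zero_pow (by omega)]]
        positivity
      · have h1 := hCT p d m a b r D G τ F hpp hdp hd hb hca hm hpr hD hF hFlat
        rw [Finset.sum_congr rfl fun g _ => by rw [hslc r g]]
        refine h1.trans ?_
        refine mul_le_mul_of_nonneg_left ?_ (by positivity)
        exact Finset.sum_le_sum fun ξ _ => sl2 r q (dlt p a F ξ) (by omega)
    have h4 : ∀ g, ‖h g‖ ^ q ≤ ((p : ℝ) ^ c) ^ (q - 1) *
        ∑ r ∈ range (p ^ c), ‖slc (p ^ c) v r h g‖ ^ q := by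
      intro g
      have := norm_sum_pow_le (range (p ^ c)) (fun r => slc (p ^ c) v r h g) q (by omega)
      rw [Finset.card_range, hdecomp g] at this
      push_cast at this
      exact this
    calc ∑ g, ‖h g‖ ^ q ≤ ∑ g, ((p : ℝ) ^ c) ^ (q - 1) *
          ∑ r ∈ range (p ^ c), ‖slc (p ^ c) v r h g‖ ^ q := Finset.sum_le_sum fun g _ => h4 g
      _ = ((p : ℝ) ^ c) ^ (q - 1) * ∑ r ∈ range (p ^ c), ∑ g, ‖slc (p ^ c) v r h g‖ ^ q := by
          rw [← Finset.mul_sum, Finset.sum_comm]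
      _ ≤ ((p : ℝ) ^ c) ^ (q - 1) * ∑ r ∈ range (p ^ c),
          (D ^ (a / b + 1) * (p : ℝ) ^ (a * (κ - 1)) * (p : ℝ) ^ (c * κ) * S) :=
          mul_le_mul_of_nonneg_left (Finset.sum_le_sum hbound) (by positivity)
      _ = ((p : ℝ) ^ c) ^ (q - 1) * (p : ℝ) ^ c * (p : ℝ) ^ (c * κ) *
          (D ^ (a / b + 1) * (p : ℝ) ^ (a * (κ - 1)) * S) := by
          rw [Finset.sum_const, Finset.card_range, nsmul_eq_mul]
          push_cast
          ring
      _ = (p : ℝ) ^ (3 * (c * κ)) * (D ^ (a / b + 1) * (p : ℝ) ^ (a * (κ - 1)) * S) := by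
          congr 1
          rw [← pow_mul, ← pow_add, ← pow_add]
          congr 1
          obtain ⟨k, hk⟩ : ∃ k, q = k + 1 := ⟨q - 1, by omega⟩
          have : c * (q - 1) + c = c * q := by
            rw [hk, Nat.add_sub_cancel]; ring
          rw [this, hq]
          ring
      _ = _ := by ring

end Pool.Agent.H93.CV
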