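import Pool.Agent.H93.CV.OP

set_option autoImplicit false

open Finset Polynomial

namespace Pool.Agent.H93.CV

open Pool.Agent.H11.CV

/-- power mean inequality for a sum of complex numbers -/
theorem norm_sum_pow_le (s : Finset ℕ) (a : ℕ → ℂ) (q : ℕ) (hq : 1 ≤ q) :
    ‖∑ i ∈ s, a i‖ ^ q ≤ (s.card : ℝ) ^ (q - 1) * ∑ i ∈ s, ‖a i‖ ^ q := by
  obtain ⟨n, rfl⟩ : ∃ n, q = n + 1 := ⟨q - 1, by omega⟩
  rcases s.eq_empty_or_nonempty with h | h
  · subst h; simp
  have hc : (0 : ℝ) < s.card := by exact_mod_cast h.card_pos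
  have h1 := pow_sum_div_card_le_sum_pow (s := s) (f := fun i => ‖a i‖)
    (fun i _ => norm_nonneg _) n
  rw [div_le_iff₀ (by positivity)] at h1
  calc ‖∑ i ∈ s, a i‖ ^ (n + 1) ≤ (∑ i ∈ s, ‖a i‖) ^ (n + 1) :=
        pow_le_pow_left₀ (norm_nonneg _) (norm_sum_le _ _) _
    _ ≤ _ := by
        rw [Nat.add_sub_cancel]
        linarith

/-- CT: iteration of the cone decoupling for one slice. -/
theorem ct (hCS : T_CS) (hRS : T_RS) : T_CT := by
  intro p d m a b r D G _ _ τ F hpp hdp hd hb hca hm hr hD hF hFlat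
  have hp : 1 < p := hpp.one_lt
  set κ := KK (d - 1) with hκ
  have hκ1 : 1 ≤ κ := KK_pos (by omega)
  set c := (d - 1) * b with hc
  have hbc : b ≤ c := by
    rw [hc]; exact Nat.le_mul_of_pos_left b (by omega)
  have hp0 : (0 : ℝ) < p := by exact_mod_cast (by omega : 0 < p)
  have hp1 : (1 : ℝ) ≤ p := by exact_mod_cast hp.le
  set q := 2 * κ with hq
  have claim : ∀ T : ℕ, (T = 0 ∨ (T - 1) * b + c ≤ a) →
      ∑ g, ‖cs p m a c τ F r 0 0 g‖ ^ q ≤
        (D * (p : ℝ) ^ (b * (κ - 1))) ^ T * ∑ J ∈ range (p ^ (T * b)),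
          ∑ g, ‖cs p m a c τ F r (T * b) J g‖ ^ q := by
    intro T
    induction T with
    | zero => intro _; simp
    | succ T ih =>
      intro hT
      have hT' : T * b + c ≤ a := by
        rcases hT with h | h
        · omega
        · simpa using h
      have ih' := ih (by
        rcases Nat.eq_zero_or_pos T with h | h
        · exact Or.inl h
        · refine Or.inr (le_trans ?_ hT')
          exact Nat.add_le_add_right (Nat.mul_le_mul_right b (by omega)) c)
      refine ih'.trans ?_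
      rw [pow_succ, mul_assoc]
      refine mul_le_mul_of_nonneg_left ?_ (by positivity)
      have e : (T + 1) * b = T * b + b := by ring
      rw [e, (hRS p (T * b) b hp).1, Finset.mul_sum]
      refine Finset.sum_le_sum fun J hJ => ?_
      exact hCS p d m a b (T * b) r D G τ F J hpp hdp hd hb hT' hm hr hF
        (Finset.mem_range.1 hJ) hFlat
  set T := (a - c) / b + 1 with hT
  set t := T * b with ht
  have hdiv : (a - c) / b * b ≤ a - c := Nat.div_mul_le_self _ _
  have hmod : a - c < ((a - c) / b + 1) * b := by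
    rw [add_mul, one_mul]
    have h1 := Nat.div_add_mod (a - c) b
    have h2 := Nat.mod_lt (a - c) hb
    rw [mul_comm] at h1
    omega
  have hta : t ≤ a := by
    rw [ht, hT, add_mul, one_mul]; omega
  have hat : a - t ≤ c := by
    rw [ht, hT]; omega
  have h1 := claim T (Or.inr (by
    rw [hT, Nat.add_sub_cancel]; omega))
  refine h1.trans ?_
  have h2 : ∀ J ∈ range (p ^ t), ∑ g, ‖cs p m a c τ F r t J g‖ ^ q ≤
      ((p : ℝ) ^ (a - t)) ^ (q - 1) * ∑ z ∈ range (p ^ (a - t)),
        ∑ g, ‖slc (p ^ c) (vv p m (a + c) τ) r (dlt p a F (J + p ^ t * z)) g‖ ^ q := by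
    intro J _
    rw [Finset.sum_comm, Finset.mul_sum]
    refine Finset.sum_le_sum fun g _ => ?_
    have := norm_sum_pow_le (range (p ^ (a - t)))
      (fun z => slc (p ^ c) (vv p m (a + c) τ) r (dlt p a F (J + p ^ t * z)) g) q (by omega)
    rw [Finset.card_range] at this
    push_cast at this
    exact this
  have h3 : ∑ J ∈ range (p ^ t), ∑ g, ‖cs p m a c τ F r t J g‖ ^ q ≤
      ((p : ℝ) ^ (a - t)) ^ (q - 1) * ∑ ξ ∈ range (p ^ a),
        ∑ g, ‖slc (p ^ c) (vv p m (a + c) τ) r (dlt p a F ξ) g‖ ^ q := by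
    refine (Finset.sum_le_sum h2).trans ?_
    rw [← Finset.mul_sum]
    refine le_of_eq ?_
    congr 1
    have := (hRS p t (a - t) hp).1 ℝ
      (fun ξ => ∑ g, ‖slc (p ^ c) (vv p m (a + c) τ) r (dlt p a F ξ) g‖ ^ q)
    rw [show t + (a - t) = a by omega] at this
    exact this.symm
  set S := ∑ ξ ∈ range (p ^ a),
        ∑ g, ‖slc (p ^ c) (vv p m (a + c) τ) r (dlt p a F ξ) g‖ ^ q with hS
  have hS0 : 0 ≤ S := Finset.sum_nonneg fun ξ _ => Finset.sum_nonneg fun g _ => by positivity
  calc (D * (p : ℝ) ^ (b * (κ - 1))) ^ T * ∑ J ∈ range (p ^ t),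
          ∑ g, ‖cs p m a c τ F r t J g‖ ^ q
      ≤ (D * (p : ℝ) ^ (b * (κ - 1))) ^ T * (((p : ℝ) ^ (a - t)) ^ (q - 1) * S) :=
        mul_le_mul_of_nonneg_left h3 (by positivity)
    _ = D ^ T * (p : ℝ) ^ (b * (κ - 1) * T + (a - t) * (q - 1)) * S := by
        rw [mul_pow, ← pow_mul, ← pow_mul, pow_add]; ring
    _ ≤ D ^ (a / b + 1) * (p : ℝ) ^ (a * (κ - 1) + c * κ) * S := by
        refine mul_le_mul_of_nonneg_right ?_ hS0
        refine mul_le_mul ?_ ?_ (by positivity) (by positivity)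
        · refine pow_le_pow_right₀ hD ?_
          rw [hT]
          exact Nat.add_le_add_right (Nat.div_le_div_right (by omega)) 1
        · refine pow_le_pow_right₀ hp1 ?_
          obtain ⟨k, hk⟩ : ∃ k, κ = k + 1 := ⟨κ - 1, by omega⟩
          obtain ⟨u, hu⟩ : ∃ u, a = t + u := ⟨a - t, by omega⟩
          have huc : u ≤ c := by omega
          have e1 : b * (κ - 1) * T = t * k := by
            rw [hk, Nat.add_sub_cancel, ht]; ring
          have e2 : (a - t) * (q - 1) = u * (2 * k + 1) := by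
            rw [hu, Nat.add_sub_cancel_left, hq, hk]
            congr 1
          have e3 : a * (κ - 1) + c * κ = (t + u) * k + c * (k + 1) := by
            rw [hk, Nat.add_sub_cancel, hu]
          rw [e1, e2, e3]
          nlinarith [Nat.mul_le_mul_right (k + 1) huc]
    _ = D ^ (a / b + 1) * (p : ℝ) ^ (a * (κ - 1)) * (p : ℝ) ^ (c * κ) * S := by
        rw [pow_add]; ring

end Pool.Agent.H93.CV
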