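import Pool.Agent.H93.CV.UN

set_option autoImplicit false

open Finset Polynomial

namespace Pool.Agent.H93.CV

open Pool.Agent.H11.CV

theorem norm_sub_cut {lam : ℝ} (hlam : 0 < lam) (z : ℂ) : ‖z - cut lam z‖ ≤ ‖z‖ ^ 2 / lam := by
  unfold cut
  split_ifs with h
  · simp only [sub_self, norm_zero]; positivity
  · rw [sub_zero, le_div_iff₀ hlam, pow_two]
    exact mul_le_mul_of_nonneg_left (not_le.1 h).le (norm_nonneg _)

theorem err_le {G : Type} (p n j : ℕ) {lam : ℝ} (hlam : 0 < lam) (f : ℕ → G → ℂ) (g : G)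
    (A : Finset ℕ) (hA : A ⊆ range (p ^ (n - j))) :
    ‖∑ x ∈ A, pr p n lam f j x g - ∑ x ∈ A, cut lam (pr p n lam f j x g)‖ ≤
      sq p n lam f j g / lam := by
  rw [← Finset.sum_sub_distrib]
  calc ‖∑ x ∈ A, (pr p n lam f j x g - cut lam (pr p n lam f j x g))‖
      ≤ ∑ x ∈ A, ‖pr p n lam f j x g - cut lam (pr p n lam f j x g)‖ := norm_sum_le _ _
    _ ≤ ∑ x ∈ A, ‖pr p n lam f j x g‖ ^ 2 / lam :=
        Finset.sum_le_sum fun x _ => norm_sub_cut hlam _
    _ ≤ ∑ x ∈ range (p ^ (n - j)), ‖pr p n lam f j x g‖ ^ 2 / lam :=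
        Finset.sum_le_sum_of_subset_of_nonneg hA fun x _ _ => by positivity
    _ = sq p n lam f j g / lam := by
        rw [← Finset.sum_div]; rfl

theorem err_zero {G : Type} (p n : ℕ) {lam : ℝ} (hlam : 1 ≤ lam) (f : ℕ → G → ℂ) (g : G)
    (hBd : Bd p n f) (A : Finset ℕ) (hA : A ⊆ range (p ^ n)) :
    ∑ x ∈ A, cut lam (pr p n lam f 0 x g) = ∑ x ∈ A, pr p n lam f 0 x g := by
  refine Finset.sum_congr rfl fun x hx => ?_
  exact cut_eq ((hBd x (Finset.mem_range.1 (hA hx)) g).trans hlam)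

theorem pr_succ {G : Type} (p n : ℕ) (lam : ℝ) (f : ℕ → G → ℂ) (j x : ℕ) (g : G) :
    pr p n lam f (j + 1) x g =
      ∑ i ∈ range p, cut lam (pr p n lam f j (x + p ^ (n - (j + 1)) * i) g) := rfl

/-- DF: the error of the pruning. -/
theorem df (hRS : T_RS) : T_DF := by
  intro p n lam G _ f g hp hlam hBd
  have hlam0 : 0 < lam := by linarith
  have gen : ∀ (A : ℕ → Finset ℕ) (m : ℕ), (∀ j, j ≤ m → A j ⊆ range (p ^ (n - j))) →
      (∀ j, j < m → ∑ x ∈ A (j + 1), pr p n lam f (j + 1) x g =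
        ∑ x ∈ A j, cut lam (pr p n lam f j x g)) →
      ∀ j, j ≤ m → ‖∑ x ∈ A 0, f x g - ∑ x ∈ A j, pr p n lam f j x g‖ ≤
        (∑ i ∈ Ico 1 j, sq p n lam f i g) / lam := by
    intro A m hA hstep j
    induction j with
    | zero =>
      intro _
      have : ∑ x ∈ A 0, pr p n lam f 0 x g = ∑ x ∈ A 0, f x g := rfl
      rw [this]
      simp
    | succ j ih =>
      intro hj
      have ih' := ih (by omega)
      rw [hstep j (by omega)]
      rcases Nat.eq_zero_or_pos j with h0 | hpos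
      · subst h0
        rw [err_zero p n hlam f g hBd (A 0) (by simpa using hA 0 (by omega))]
        have : ∑ x ∈ A 0, pr p n lam f 0 x g = ∑ x ∈ A 0, f x g := rfl
        rw [this]
        simp
      · rw [Finset.sum_Ico_succ_top (by omega), add_div]
        calc ‖∑ x ∈ A 0, f x g - ∑ x ∈ A j, cut lam (pr p n lam f j x g)‖
            = ‖(∑ x ∈ A 0, f x g - ∑ x ∈ A j, pr p n lam f j x g) +
              (∑ x ∈ A j, pr p n lam f j x g - ∑ x ∈ A j, cut lam (pr p n lam f j x g))‖ := by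
              congr 1; ring
          _ ≤ ‖∑ x ∈ A 0, f x g - ∑ x ∈ A j, pr p n lam f j x g‖ +
              ‖∑ x ∈ A j, pr p n lam f j x g - ∑ x ∈ A j, cut lam (pr p n lam f j x g)‖ :=
              norm_add_le _ _
          _ ≤ _ := add_le_add ih' (err_le p n j hlam0 f g (A j) (hA j (by omega)))
  refine ⟨?_, ?_⟩
  · intro j hj
    have := gen (fun j => range (p ^ (n - j))) n (fun j _ => subset_rfl) ?_ j hj
    · simpa using this
    · intro i hi
      have h := (hRS p (n - (i + 1)) 1 hp).1 ℂ (fun x => cut lam (pr p n lam f i x g))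
      rw [show n - (i + 1) + 1 = n - i by omega, pow_one] at h
      rw [h]
      rfl
  · intro j c hj
    have := gen (fun j => (range (p ^ (n - j))).filter (fun x => x % p = c)) j
      (fun i _ => Finset.filter_subset _ _) ?_ j le_rfl
    · simpa [clsum] using this
    · intro i hi
      have h := (hRS p (n - (i + 1)) 1 hp).2.2.2.1 (by omega) ℂ
        (fun x => cut lam (pr p n lam f i x g)) c
      rw [show n - (i + 1) + 1 = n - i by omega, pow_one] at h
      rw [h]
      rfl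

end Pool.Agent.H93.CV
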