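import Pool.Agent.H11.CV.Targets

set_option autoImplicit false

open Finset Polynomial

namespace Pool.Agent.H93.CV

open Pool.Agent.H11.CV

theorem KK_succ (n : ℕ) : KK (n + 1) = KK n + (n + 1) := by
  unfold KK
  have h : (n + 1) * (n + 1 + 1) = n * (n + 1) + 2 * (n + 1) := by ring
  rw [h]
  omega

theorem KK_one : KK 1 = 1 := by decide

theorem KK_pos {d : ℕ} (hd : 1 ≤ d) : 1 ≤ KK d := by
  obtain ⟨n, rfl⟩ : ∃ n, d = n + 1 := ⟨d - 1, by omega⟩
  rw [KK_succ]; omega

theorem KK_ge (d : ℕ) (hd : 3 ≤ d) : d ≤ KK (d - 1) := by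
  obtain ⟨n, rfl⟩ : ∃ n, d = n + 3 := ⟨d - 3, by omega⟩
  have : n + 3 - 1 = (n + 1) + 1 := by omega
  rw [this, KK_succ, KK_succ]
  rcases n with _ | n
  · simp [KK]
  · rw [KK_succ]; omega

/-- OP: balancing the two bounds. -/
theorem op : T_OP := by
  intro d X N lam D S E hd hX hN hlam hD hE hS h1 h2
  rcases Nat.lt_or_ge d 3 with h3 | h3
  · have hd2 : d = 2 := by omega
    subst hd2
    have k1 : KK (2 - 1) = 1 := by decide
    have k2 : KK 2 = 3 := by decide
    have hth : th 2 = 0 := by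
      unfold th
      rw [k1]; simp
    rw [hth, k1]
    rw [k1] at h1
    simpa using h1
  · have h2' := h2 h3
    set κ := KK (d - 1) with hκ
    have hK : KK d = κ + d := by
      have : d = (d - 1) + 1 := by omega
      conv_lhs => rw [this]
      rw [KK_succ]
      omega
    have hκd : d ≤ κ := KK_ge d h3
    rw [hK] at h2'
    have hth : th d = ((κ : ℝ) - 1) / ((κ : ℝ) + d - 1) := by
      unfold th
      rw [hK, ← hκ]; push_cast; rfl
    have hK1 : (0 : ℝ) < (κ : ℝ) + d - 1 := by
      have : (3 : ℝ) ≤ d := by exact_mod_cast h3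
      have : (3 : ℝ) ≤ κ := by exact_mod_cast (by omega : 3 ≤ κ)
      linarith
    set t : ℝ := N * lam ^ 2 / X with ht
    have htpos : 0 < t := by positivity
    have e1 : N ^ (κ - 1) * lam ^ (4 * κ - 2) = t ^ (κ - 1) * (X ^ (κ - 1) * lam ^ (2 * κ)) := by
      rw [ht, div_pow, mul_pow, ← pow_mul]
      have : 4 * κ - 2 = 2 * (κ - 1) + 2 * κ := by omega
      rw [this, pow_add]
      field_simp
    have e2 : N ^ (κ - 1) * ((X / N) ^ (κ + d - 1) * lam ^ (4 * κ - 2 * (κ + d))) =
        (t ^ d)⁻¹ * (X ^ (κ - 1) * lam ^ (2 * κ)) := by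
      have a1 : κ + d - 1 = (κ - 1) + d := by omega
      have a2 : 2 * κ = (4 * κ - 2 * (κ + d)) + 2 * d := by omega
      have a3 : lam ^ (2 * κ) = lam ^ (4 * κ - 2 * (κ + d)) * (lam ^ 2) ^ d := by
        rw [← pow_mul, ← pow_add, ← a2]
      rw [a1, a3, ht, div_pow, div_pow, mul_pow, pow_add, pow_add]
      field_simp
    have hR : 0 ≤ X ^ (κ - 1) * lam ^ (2 * κ) * E := by positivity
    have goal_of : ∀ c : ℝ, c ≤ D ^ (th d) →
        N ^ (κ - 1) * S ≤ c * (X ^ (κ - 1) * lam ^ (2 * κ)) * E →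
        N ^ (κ - 1) * S ≤ D ^ (th d) * lam ^ (2 * κ) * X ^ (κ - 1) * E := by
      intro c hc hle
      calc N ^ (κ - 1) * S ≤ c * (X ^ (κ - 1) * lam ^ (2 * κ)) * E := hle
        _ = c * (X ^ (κ - 1) * lam ^ (2 * κ) * E) := by ring
        _ ≤ D ^ (th d) * (X ^ (κ - 1) * lam ^ (2 * κ) * E) :=
            mul_le_mul_of_nonneg_right hc hR
        _ = _ := by ring
    have hD0 : (0 : ℝ) < D := by linarith
    rcases le_or_gt (t ^ (κ + d - 1)) D with hc | hc
    · apply goal_of (t ^ (κ - 1))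
      · have e3 : t ^ (κ - 1) = (t ^ (κ + d - 1)) ^ (th d) := by
          rw [← Real.rpow_natCast, ← Real.rpow_natCast, ← Real.rpow_mul htpos.le, hth]
          congr 1
          have : ((κ + d - 1 : ℕ) : ℝ) = (κ : ℝ) + d - 1 := by
            rw [Nat.cast_sub (by omega)]; push_cast; ring
          rw [this]
          have : ((κ - 1 : ℕ) : ℝ) = (κ : ℝ) - 1 := by
            rw [Nat.cast_sub (by omega)]; push_cast; ring
          rw [this]
          field_simp
        rw [e3]
        apply Real.rpow_le_rpow (by positivity) hc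
        rw [hth]
        apply div_nonneg _ hK1.le
        have : (3 : ℝ) ≤ κ := by exact_mod_cast (by omega : 3 ≤ κ)
        linarith
      · calc N ^ (κ - 1) * S ≤ N ^ (κ - 1) * (lam ^ (4 * κ - 2) * E) :=
              mul_le_mul_of_nonneg_left h1 (by positivity)
          _ = N ^ (κ - 1) * lam ^ (4 * κ - 2) * E := by ring
          _ = _ := by rw [e1]
    · apply goal_of (D * (t ^ d)⁻¹)
      · have e4 : D = D ^ (th d) * D ^ ((d : ℝ) / ((κ : ℝ) + d - 1)) := by
          rw [← Real.rpow_add hD0, hth, ← add_div]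
          rw [show (κ : ℝ) - 1 + d = (κ : ℝ) + d - 1 by ring, div_self hK1.ne', Real.rpow_one]
        have e5 : D ^ ((d : ℝ) / ((κ : ℝ) + d - 1)) ≤ t ^ d := by
          have : t ^ d = (t ^ (κ + d - 1)) ^ ((d : ℝ) / ((κ : ℝ) + d - 1)) := by
            rw [← Real.rpow_natCast, ← Real.rpow_natCast, ← Real.rpow_mul htpos.le]
            congr 1
            have : ((κ + d - 1 : ℕ) : ℝ) = (κ : ℝ) + d - 1 := by
              rw [Nat.cast_sub (by omega)]; push_cast; ring
            rw [this]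
            field_simp
          rw [this]
          apply Real.rpow_le_rpow hD0.le hc.le
          positivity
        have htd : 0 < t ^ d := by positivity
        rw [← div_eq_mul_inv, div_le_iff₀ htd]
        calc D = D ^ (th d) * D ^ ((d : ℝ) / ((κ : ℝ) + d - 1)) := e4
          _ ≤ D ^ (th d) * t ^ d := mul_le_mul_of_nonneg_left e5 (by positivity)
      · calc N ^ (κ - 1) * S ≤ N ^ (κ - 1) * (D * (X / N) ^ (κ + d - 1) *
                lam ^ (4 * κ - 2 * (κ + d)) * E) :=
              mul_le_mul_of_nonneg_left h2' (by positivity)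
          _ = D * (N ^ (κ - 1) * ((X / N) ^ (κ + d - 1) * lam ^ (4 * κ - 2 * (κ + d)))) * E := by
              ring
          _ = _ := by rw [e2]; ring

end Pool.Agent.H93.CV
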