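import Pool.Agent.H11.CV.Targets

set_option autoImplicit false

open Finset Polynomial

namespace Pool.Agent.H93.CV

open Pool.Agent.H11.CV

theorem norm_cut_le {lam : ℝ} (hlam : 0 ≤ lam) (z : ℂ) : ‖cut lam z‖ ≤ lam := by
  unfold cut
  split_ifs with h
  · exact h
  · simpa using hlam

theorem cut_eq {lam : ℝ} {z : ℂ} (h : ‖z‖ ≤ lam) : cut lam z = z := by
  unfold cut
  rw [if_pos h]

/-- `n - (i+1)` and `n - i` -/
theorem pow_sub_succ (p n i : ℕ) (h : i < n) : p ^ (n - i) = p ^ (n - (i + 1)) * p := by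
  rw [← pow_succ]; congr 1; omega

theorem blk_zero {G : Type} (p n : ℕ) (f : ℕ → G → ℂ) (x : ℕ) (g : G) :
    blk p n f 0 x g = f x g := by
  unfold blk
  simp

theorem blk_succ (hRS : T_RS) {G : Type} (p n : ℕ) (hp : 1 < p) (f : ℕ → G → ℂ) (i x : ℕ)
    (hi : i < n) (g : G) :
    blk p n f (i + 1) x g = ∑ l ∈ range p, blk p n f i (x + p ^ (n - (i + 1)) * l) g := by
  unfold blk
  have h := (hRS p 1 i hp).1 ℂ (fun y => f (x + p ^ (n - (i + 1)) * y) g)
  rw [add_comm i 1]
  rw [add_comm i 1] at h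
  rw [h, pow_one]
  refine Finset.sum_congr rfl fun l _ => Finset.sum_congr rfl fun y _ => ?_
  congr 1
  rw [pow_sub_succ p n i hi]
  rw [add_comm 1 i]
  ring

/-- UN: comparison of pruned and unpruned functions. -/
theorem un (hRS : T_RS) : T_UN := by
  intro p n q lam G _ f g hp hlam hq hBd j ξ hj hξ
  have hlam0 : 0 ≤ lam := by linarith
  have hnonneg1 : 0 ≤ (if ‖blk p n f j ξ g‖ ≤ lam then ‖blk p n f j ξ g‖ ^ (2 * q) else 0) := by
    split_ifs <;> positivity
  have hnonneg2 : ∀ i z : ℕ, (0 : ℝ) ≤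
      (if lam ≤ ‖blk p n f i (ξ + p ^ (n - j) * z) g‖ then 1 else 0) := by
    intro i z
    split_ifs <;> norm_num
  by_cases hA : ∀ i, 1 ≤ i → i ≤ j → ∀ z, z < p ^ (j - i) →
      ‖blk p n f i (ξ + p ^ (n - j) * z) g‖ < lam
  · have key : ∀ i, i ≤ j → ∀ z, z < p ^ (j - i) →
        pr p n lam f i (ξ + p ^ (n - j) * z) g = blk p n f i (ξ + p ^ (n - j) * z) g ∧
        ‖blk p n f i (ξ + p ^ (n - j) * z) g‖ ≤ lam := by
      intro i
      induction i with
      | zero =>
        intro _ z hz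
        rw [blk_zero]
        refine ⟨rfl, ?_⟩
        have hx : ξ + p ^ (n - j) * z < p ^ n := by
          have := (hRS p (n - j) j hp).2.1 ξ z hξ (by simpa using hz)
          rwa [Nat.sub_add_cancel hj] at this
        exact (hBd _ hx g).trans hlam
      | succ i ih =>
        intro hij z hz
        refine ⟨?_, (hA (i + 1) (by omega) hij z hz).le⟩
        rw [blk_succ hRS p n hp f i _ (by omega) g]
        change ∑ l ∈ range p, cut lam
          (pr p n lam f i (ξ + p ^ (n - j) * z + p ^ (n - (i + 1)) * l) g) = _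
        refine Finset.sum_congr rfl fun l hl => ?_
        have hz' : z + p ^ (j - (i + 1)) * l < p ^ (j - i) := by
          have := (hRS p (j - (i + 1)) 1 hp).2.1 z l hz (by simpa using Finset.mem_range.1 hl)
          rwa [show j - (i + 1) + 1 = j - i by omega] at this
        have hx : ξ + p ^ (n - j) * z + p ^ (n - (i + 1)) * l =
            ξ + p ^ (n - j) * (z + p ^ (j - (i + 1)) * l) := by
          have : p ^ (n - (i + 1)) = p ^ (n - j) * p ^ (j - (i + 1)) := by
            rw [← pow_add]; congr 1; omega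
          rw [this]; ring
        rw [hx]
        obtain ⟨h1, h2⟩ := ih (by omega) _ hz'
        rw [h1, cut_eq h2]
    obtain ⟨h1, h2⟩ := key j le_rfl 0 (by simp)
    rw [mul_zero, add_zero] at h1 h2
    have : pt p n lam f j ξ g = blk p n f j ξ g := by
      unfold pt
      rw [h1, cut_eq h2]
    rw [this, if_pos h2]
    have : 0 ≤ lam ^ (2 * q) * ∑ i ∈ Icc 1 j, ∑ z ∈ range (p ^ (j - i)),
          (if lam ≤ ‖blk p n f i (ξ + p ^ (n - j) * z) g‖ then (1 : ℝ) else 0) :=
      mul_nonneg (by positivity)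
        (Finset.sum_nonneg fun i _ => Finset.sum_nonneg fun z _ => hnonneg2 i z)
    linarith
  · push Not at hA
    obtain ⟨i, hi1, hij, z, hz, hle⟩ := hA
    have hone : (1 : ℝ) ≤ ∑ i ∈ Icc 1 j, ∑ z ∈ range (p ^ (j - i)),
          (if lam ≤ ‖blk p n f i (ξ + p ^ (n - j) * z) g‖ then (1 : ℝ) else 0) := by
      calc (1 : ℝ) = (if lam ≤ ‖blk p n f i (ξ + p ^ (n - j) * z) g‖ then (1 : ℝ) else 0) := by
            rw [if_pos hle]
        _ ≤ ∑ z ∈ range (p ^ (j - i)),
            (if lam ≤ ‖blk p n f i (ξ + p ^ (n - j) * z) g‖ then (1 : ℝ) else 0) :=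
            Finset.single_le_sum (f := fun z =>
              (if lam ≤ ‖blk p n f i (ξ + p ^ (n - j) * z) g‖ then (1 : ℝ) else 0))
              (fun z _ => hnonneg2 i z) (Finset.mem_range.2 hz)
        _ ≤ _ := Finset.single_le_sum (f := fun i => ∑ z ∈ range (p ^ (j - i)),
              (if lam ≤ ‖blk p n f i (ξ + p ^ (n - j) * z) g‖ then (1 : ℝ) else 0))
              (fun i _ => Finset.sum_nonneg fun z _ => hnonneg2 i z)
              (Finset.mem_Icc.2 ⟨hi1, hij⟩)
    have hpt : ‖pt p n lam f j ξ g‖ ^ (2 * q) ≤ lam ^ (2 * q) :=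
      pow_le_pow_left₀ (norm_nonneg _) (norm_cut_le hlam0 _) _
    have := mul_le_mul_of_nonneg_left hone (by positivity : (0 : ℝ) ≤ lam ^ (2 * q))
    linarith

end Pool.Agent.H93.CV
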